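import Mathlib

/-!
# MP_ad1e8a_co: the gap of the generalised pancake graph can be smaller than that of the quotient

For `m = 6`, `n = 2` the function `2 cos (π (c₁ - c₂) / 3)` of the colours `c₁`, `c₂` of the letters
`1`, `2` is an eigenvector of the adjacency matrix for the eigenvalue `3`, so the gap of the graph is
at most `4 - 3 = 1`. The second eigenvalue of the quotient matrix is `2 √2 < 3`.
-/

set_option autoImplicit false

open Finset Matrix

namespace Pool.Agent.Results.MP_ad1e8a_co.GapFails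

/-- The coloured permutations `(χ, ψ)`: position `t` carries the letter `ψ t` with colour `χ t`. -/
abbrev CP (m n : ℕ) : Type := (Fin n → ZMod m) × Equiv.Perm (Fin n)

/-- The reversal of the positions `0, ..., k`. -/
def rev {n : ℕ} (k : Fin n) : Equiv.Perm (Fin n) :=
  Function.Involutive.toPerm
    (fun t => if t ≤ k then ⟨k.val - t.val, lt_of_le_of_lt (Nat.sub_le _ _) k.isLt⟩ else t)
    (by
      intro t
      by_cases h : t ≤ k
      · have h' : (⟨k.val - t.val, lt_of_le_of_lt (Nat.sub_le _ _) k.isLt⟩ : Fin n) ≤ k := by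
          rw [Fin.le_def]; exact Nat.sub_le _ _
        simp only [h, if_true, h']
        apply Fin.ext
        have := Fin.le_def.mp h
        show k.val - (k.val - t.val) = t.val
        omega
      · simp only [h, if_false])

/-- The prefix reversal `r_{k+1}^ε`. -/
def pre {m n : ℕ} (k : Fin n) (ε : ℤ) (σ : CP m n) : CP m n :=
  (fun t => if t ≤ k then σ.1 (rev k t) + (ε : ZMod m) else σ.1 t, σ.2 * rev k)

/-- The generalised pancake graph `P_m(n)`. -/
def pancake (m n : ℕ) : SimpleGraph (CP m n) where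
  Adj x y := x ≠ y ∧ ∃ (k : Fin n) (ε : ℤ), (ε = 1 ∨ ε = -1) ∧ (pre k ε x = y ∨ pre k ε y = x)
  symm := ⟨fun _ _ h => ⟨h.1.symm, h.2.imp fun _ => fun ⟨ε, h1, h2⟩ => ⟨ε, h1, h2.symm⟩⟩⟩
  loopless := ⟨fun _ h => h.1 rfl⟩

/-- The part `V_{i,j}`: position `j` carries the first letter, with colour `i`. -/
def part (m n : ℕ) (a : ZMod m × Fin n) : Set (CP m n) :=
  {σ | (σ.2 a.2).val = 0 ∧ σ.1 a.2 = a.1}

/-- `Q` is the quotient matrix of the partition into the sets `V_{i,j}`: every vertex of the part `a`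
has exactly `Q a b` neighbours in the part `b`. -/
def IsQuotient (m n : ℕ) (Q : Matrix (ZMod m × Fin n) (ZMod m × Fin n) ℝ) : Prop :=
  ∀ a b, ∀ u ∈ part m n a, Q a b = ({v ∈ part m n b | (pancake m n).Adj u v}.ncard : ℝ)

/-- The list of the real eigenvalues of a real square matrix (the roots of its characteristic
polynomial, with multiplicity) in nonincreasing order. -/
noncomputable def eigList {ι : Type} [Fintype ι] [DecidableEq ι] (M : Matrix ι ι ℝ) : List ℝ :=
  M.charpoly.roots.sort (· ≥ ·)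

/-- The gap: the first entry of the list of eigenvalues minus the second. -/
noncomputable def gap {ι : Type} [Fintype ι] [DecidableEq ι] (M : Matrix ι ι ℝ) : ℝ :=
  (eigList M).getD 0 0 - (eigList M).getD 1 0

section General

variable {ι : Type} [Fintype ι] [DecidableEq ι]

lemma eigList_eq (M : Matrix ι ι ℝ) (hM : M.IsHermitian) :
    eigList M = List.ofFn hM.eigenvalues₀ := by
  have h := hM.sort_roots_charpoly_eq_eigenvalues₀
  unfold eigList
  rw [← h]
  congr 1
  have : (fun x : ℝ => RCLike.re x) = id := by funext x; simp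
  rw [show (RCLike.re : ℝ →+ ℝ) = AddMonoidHom.id ℝ from by ext; simp]
  simp

lemma gap_eq (M : Matrix ι ι ℝ) (hM : M.IsHermitian) (h : 2 ≤ Fintype.card ι) :
    gap M = hM.eigenvalues₀ ⟨0, by omega⟩ - hM.eigenvalues₀ ⟨1, by omega⟩ := by
  unfold gap
  rw [eigList_eq M hM, List.getD_eq_getElem _ _ (by simp; omega),
    List.getD_eq_getElem _ _ (by simp; omega)]
  simp

/-- an eigenvalue occurs in the list. -/
lemma exists_index (M : Matrix ι ι ℝ) (hM : M.IsHermitian) (μ : ℝ) (v : ι → ℝ) (hv : v ≠ 0)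
    (h : M *ᵥ v = μ • v) : ∃ i, hM.eigenvalues₀ i = μ := by
  have h1 : (Matrix.scalar ι μ - M).det = 0 := by
    rw [← Matrix.exists_mulVec_eq_zero_iff]
    refine ⟨v, hv, ?_⟩
    rw [Matrix.sub_mulVec, h]
    have : (Matrix.scalar ι μ) *ᵥ v = μ • v := by
      funext i
      simp [Matrix.scalar_apply, Matrix.mulVec_diagonal]
    rw [this, sub_self]
  have h2 : M.charpoly.IsRoot μ := by
    rw [Polynomial.IsRoot, Matrix.eval_charpoly, h1]
  have h3 : μ ∈ M.charpoly.roots := by
    rw [Polynomial.mem_roots M.charpoly_monic.ne_zero]; exact h2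
  rw [hM.roots_charpoly_eq_eigenvalues₀] at h3
  rw [Multiset.mem_map] at h3
  obtain ⟨i, _, hi⟩ := h3
  exact ⟨i, by simpa using hi⟩

end General

/-! ### The case `m = 6`, `n = 2` -/

lemma rev_rev {n : ℕ} (k t : Fin n) : rev k (rev k t) = t := by
  have : (rev k : Fin n → Fin n) ((rev k : Fin n → Fin n) t) = t := (rev k).left_inv t
  exact this

lemma rev_le {n : ℕ} (k t : Fin n) : rev k t ≤ k ↔ t ≤ k := by
  have key : ∀ s : Fin n, s ≤ k → rev k s ≤ k := by
    intro s hs
    show (if s ≤ k then _ else _ : Fin n) ≤ k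
    rw [if_pos hs, Fin.le_def]
    exact Nat.sub_le _ _
  constructor
  · intro h
    have := key _ h
    rwa [rev_rev] at this
  · exact key t

lemma pre_pre {m n : ℕ} (k : Fin n) (ε : ℤ) (σ : CP m n) : pre k (-ε) (pre k ε σ) = σ := by
  apply Prod.ext
  · funext t
    show (if t ≤ k then (if rev k t ≤ k then σ.1 (rev k (rev k t)) + (ε : ZMod m)
      else σ.1 (rev k t)) + ((-ε : ℤ) : ZMod m) else (if t ≤ k then σ.1 (rev k t) + (ε : ZMod m)
      else σ.1 t)) = σ.1 t
    by_cases h : t ≤ k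
    · rw [if_pos h, if_pos ((rev_le k t).mpr h), rev_rev]
      push_cast
      ring
    · rw [if_neg h, if_neg h]
  · show σ.2 * rev k * rev k = σ.2
    have : rev k * rev k = 1 := by
      ext t
      rw [Equiv.Perm.mul_apply, rev_rev]
      rfl
    rw [mul_assoc, this, mul_one]

/-- the four moves. -/
def mv (p : Fin 2 × Bool) (u : CP 6 2) : CP 6 2 := pre p.1 (if p.2 = true then 1 else -1) u

set_option maxRecDepth 100000 in
lemma mv_ne : ∀ (u : CP 6 2) (p : Fin 2 × Bool), mv p u ≠ u := by decide +kernel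

set_option maxRecDepth 100000 in
lemma mv_inj : ∀ (u : CP 6 2) (p q : Fin 2 × Bool), mv p u = mv q u → p = q := by decide +kernel

lemma adj_iff (u v : CP 6 2) : (pancake 6 2).Adj u v ↔ ∃ p, mv p u = v := by
  constructor
  · rintro ⟨_, k, ε, hε, h | h⟩
    · rcases hε with rfl | rfl
      · exact ⟨(k, true), h⟩
      · exact ⟨(k, false), h⟩
    · have h2 : pre k (-ε) u = v := by rw [← h, pre_pre]
      rcases hε with rfl | rfl
      · exact ⟨(k, false), h2⟩
      · exact ⟨(k, true), by rw [← h2]; rfl⟩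
  · rintro ⟨p, rfl⟩
    refine ⟨(mv_ne u p).symm, p.1, (if p.2 = true then 1 else -1), ?_, Or.inl rfl⟩
    by_cases h : p.2 = true
    · left; rw [if_pos h]
    · right; rw [if_neg h]

open Classical in
/-- the adjacency matrix. -/
noncomputable def AM : Matrix (CP 6 2) (CP 6 2) ℝ := (pancake 6 2).adjMatrix ℝ

lemma AM_herm : AM.IsHermitian := by
  classical
  unfold AM
  rw [Matrix.IsHermitian, Matrix.conjTranspose_eq_transpose_of_trivial]
  exact (pancake 6 2).transpose_adjMatrix

lemma AM_mulVec (f : CP 6 2 → ℝ) (u : CP 6 2) : (AM *ᵥ f) u = ∑ p, f (mv p u) := by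
  classical
  unfold AM
  rw [SimpleGraph.adjMatrix_mulVec_apply]
  have : (pancake 6 2).neighborFinset u = Finset.univ.image (fun p => mv p u) := by
    ext v
    rw [SimpleGraph.mem_neighborFinset, adj_iff]
    simp
  rw [this, Finset.sum_image]
  intro p _ q _ h
  exact mv_inj u p q h

/-- values of `2 cos (π d / 3)`. -/
def FF (d : ZMod 6) : ℤ := if d = 0 then 2 else if d = 1 then 1 else if d = 2 then -1 else
  if d = 3 then -2 else if d = 4 then -1 else 1

/-- the eigenfunction. -/
def ff (u : CP 6 2) : ℤ := FF (u.1 (u.2.symm 0) - u.1 (u.2.symm 1))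

set_option maxRecDepth 100000 in
lemma ff_eq : ∀ u : CP 6 2, ∑ p, ff (mv p u) = 3 * ff u := by decide +kernel

lemma card_CP : Fintype.card (CP 6 2) = 72 := by
  simp [CP, ZMod.card, Fintype.card_perm]

lemma AM_gap : gap AM ≤ 1 := by
  have hc : 2 ≤ Fintype.card (CP 6 2) := by rw [card_CP]; norm_num
  rw [gap_eq AM AM_herm hc]
  obtain ⟨i, hi⟩ := exists_index AM AM_herm 4 (fun _ => 1)
    (by intro h; have := congrFun h (fun _ => 0, 1); simp at this)
    (by funext u; rw [AM_mulVec]; simp)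
  obtain ⟨j, hj⟩ := exists_index AM AM_herm 3 (fun u => (ff u : ℝ))
    (by
      intro h
      have := congrFun h ((fun _ => 0), 1)
      simp only [Pi.zero_apply, Int.cast_eq_zero] at this
      revert this
      decide)
    (by
      funext u
      rw [AM_mulVec]
      have := ff_eq u
      simp only [Pi.smul_apply, smul_eq_mul]
      rw [← Int.cast_sum, this]
      push_cast
      ring)
  have hne : i ≠ j := by
    intro h
    rw [h, hj] at hi
    norm_num at hi
  have hanti := AM_herm.eigenvalues₀_antitone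
  have h1 : 3 ≤ AM_herm.eigenvalues₀ ⟨1, by omega⟩ := by
    by_cases hj1 : 1 ≤ j.val
    · have := hanti (show (⟨1, by omega⟩ : Fin _) ≤ j from hj1)
      rw [hj] at this
      exact this
    · have hi1 : 1 ≤ i.val := by
        by_contra hcon
        exact hne (Fin.ext (by omega))
      have := hanti (show (⟨1, by omega⟩ : Fin _) ≤ i from hi1)
      rw [hi] at this
      linarith
  have h0 : AM_herm.eigenvalues₀ ⟨0, by omega⟩ ≤ 4 := by
    set e := Fintype.equivOfCardEq (Fintype.card_fin (Fintype.card (CP 6 2))) with he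
    set i0 := e ⟨0, by omega⟩ with hi0
    have hev : AM_herm.eigenvalues i0 = AM_herm.eigenvalues₀ ⟨0, by omega⟩ := by
      unfold Matrix.IsHermitian.eigenvalues
      rw [hi0, he]
      simp
    have hv := AM_herm.mulVec_eigenvectorBasis i0
    rw [hev] at hv
    set v : CP 6 2 → ℝ := ⇑(AM_herm.eigenvectorBasis i0) with hvdef
    obtain ⟨u, _, hu⟩ := Finset.exists_max_image (Finset.univ : Finset (CP 6 2)) (fun u => |v u|)
      ⟨(fun _ => 0, 1), Finset.mem_univ _⟩
    have hpos : 0 < |v u| := by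
      by_contra hcon
      have hz : ∀ x, v x = 0 := by
        intro x
        have := hu x (Finset.mem_univ x)
        have h2 := abs_nonneg (v x)
        have h3 : |v x| = 0 := by linarith [not_lt.mp hcon]
        exact abs_eq_zero.mp h3
      have h4 : (AM_herm.eigenvectorBasis i0) = 0 := by
        ext x
        exact hz x
      exact AM_herm.eigenvectorBasis.orthonormal.ne_zero i0 h4
    have h5 := congrFun hv u
    rw [AM_mulVec] at h5
    simp only [Pi.smul_apply, smul_eq_mul] at h5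
    have h6 : |∑ p, v (mv p u)| ≤ 4 * |v u| := by
      calc |∑ p, v (mv p u)| ≤ ∑ p, |v (mv p u)| := Finset.abs_sum_le_sum_abs _ _
        _ ≤ ∑ _p : Fin 2 × Bool, |v u| := Finset.sum_le_sum fun p _ => hu _ (Finset.mem_univ _)
        _ = 4 * |v u| := by simp
    rw [h5, abs_mul] at h6
    have h7 := le_of_mul_le_mul_right h6 hpos
    exact (le_abs_self _).trans h7
  linarith

/-! ### The quotient matrix -/

/-- the part of a vertex. -/
def partOf (u : CP 6 2) : ZMod 6 × Fin 2 := (u.1 (u.2.symm 0), u.2.symm 0)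

/-- the induced moves on the parts. -/
def stepf (p : Fin 2 × Bool) (a : ZMod 6 × Fin 2) : ZMod 6 × Fin 2 :=
  if p.1 = 0 then (if a.2 = 0 then (a.1 + (if p.2 = true then 1 else -1), 0) else a)
  else (a.1 + (if p.2 = true then 1 else -1), if a.2 = 0 then 1 else 0)

set_option maxRecDepth 100000 in
lemma partOf_mv : ∀ (u : CP 6 2) (p : Fin 2 × Bool), partOf (mv p u) = stepf p (partOf u) := by
  decide +kernel

lemma mem_part_iff (u : CP 6 2) (a : ZMod 6 × Fin 2) : u ∈ part 6 2 a ↔ partOf u = a := by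
  constructor
  · rintro ⟨h1, h2⟩
    have h3 : u.2 a.2 = 0 := Fin.ext h1
    have h4 : u.2.symm 0 = a.2 := by rw [← h3, Equiv.symm_apply_apply]
    unfold partOf
    rw [h4, h2]
  · rintro rfl
    refine ⟨?_, rfl⟩
    show (u.2 (u.2.symm 0)).val = 0
    rw [Equiv.apply_symm_apply]
    rfl

/-- the quotient matrix, with natural number entries. -/
def QN (a b : ZMod 6 × Fin 2) : ℕ := (Finset.univ.filter (fun p => stepf p a = b)).card

set_option maxRecDepth 100000 in
lemma QN_symm : ∀ a b, QN a b = QN b a := by decide +kernel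

/-- the quotient matrix. -/
noncomputable def QM : Matrix (ZMod 6 × Fin 2) (ZMod 6 × Fin 2) ℝ := fun a b => (QN a b : ℝ)

lemma QM_quot : IsQuotient 6 2 QM := by
  intro a b u hu
  rw [mem_part_iff] at hu
  subst hu
  unfold QM QN
  rw [← Set.ncard_coe_finset]
  refine congrArg Nat.cast (Set.ncard_congr (fun p _ => mv p u) ?_ ?_ ?_)
  · intro p hp
    simp only [Finset.coe_filter, Finset.mem_univ, true_and] at hp
    refine ⟨?_, ?_⟩
    · rw [mem_part_iff, partOf_mv]; exact hp
    · rw [adj_iff]; exact ⟨p, rfl⟩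
  · intro p q _ _ h
    exact mv_inj u p q h
  · rintro v ⟨hv, hadj⟩
    rw [adj_iff] at hadj
    obtain ⟨p, rfl⟩ := hadj
    refine ⟨p, ?_, rfl⟩
    simp only [Finset.coe_filter, Finset.mem_univ, true_and]
    rw [mem_part_iff, partOf_mv] at hv
    exact hv

lemma QM_herm : QM.IsHermitian := by
  rw [Matrix.IsHermitian, Matrix.conjTranspose_eq_transpose_of_trivial]
  ext a b
  simp only [Matrix.transpose_apply, QM]
  rw [QN_symm]

lemma QM_mulVec (w : ZMod 6 × Fin 2 → ℝ) (a : ZMod 6 × Fin 2) :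
    (QM *ᵥ w) a = ∑ p, w (stepf p a) := by
  have h : ∀ b, QM a b * w b = ∑ p, if stepf p a = b then w b else 0 := by
    intro b
    unfold QM QN
    rw [Finset.card_filter]
    push_cast
    rw [Finset.sum_mul]
    apply Finset.sum_congr rfl
    intro p _
    split_ifs <;> simp
  simp only [Matrix.mulVec, dotProduct]
  rw [Finset.sum_congr rfl (fun b _ => h b), Finset.sum_comm]
  apply Finset.sum_congr rfl
  intro p _
  simp

/-- the linear algebra. -/
lemma lin (l x0 x1 x2 x3 x4 x5 y0 y1 y2 y3 y4 y5 : ℝ) (hl : 3 ≤ l)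
    (e0 : x1 + x5 + (y1 + y5) = l * x0) (e1 : x2 + x0 + (y2 + y0) = l * x1)
    (e2 : x3 + x1 + (y3 + y1) = l * x2) (e3 : x4 + x2 + (y4 + y2) = l * x3)
    (e4 : x5 + x3 + (y5 + y3) = l * x4) (e5 : x0 + x4 + (y0 + y4) = l * x5)
    (f0 : 2 * y0 + (x1 + x5) = l * y0) (f1 : 2 * y1 + (x2 + x0) = l * y1)
    (f2 : 2 * y2 + (x3 + x1) = l * y2) (f3 : 2 * y3 + (x4 + x2) = l * y3)
    (f4 : 2 * y4 + (x5 + x3) = l * y4) (f5 : 2 * y5 + (x0 + x4) = l * y5) :
    (x1 = x0 ∧ x2 = x0 ∧ x3 = x0 ∧ x4 = x0 ∧ x5 = x0) ∧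
      (y0 = x0 ∧ y1 = x0 ∧ y2 = x0 ∧ y3 = x0 ∧ y4 = x0 ∧ y5 = x0) := by
  have mode : ∀ s X Y : ℝ, (s = 1 ∨ s = -1 ∨ s = -2) → s * X + s * Y = l * X →
      2 * Y + s * X = l * Y → X = 0 ∧ Y = 0 := by
    intro s X Y hs h1 h2
    have h3 : (s ^ 2 + (l - 2) * s - l * (l - 2)) * X = 0 := by
      linear_combination (l - 2) * h1 + s * h2
    have h4 : s ^ 2 + (l - 2) * s - l * (l - 2) ≠ 0 := by
      rcases hs with rfl | rfl | rfl
      · have : 0 < l * (l - 3) + 1 := by nlinarith
        intro h; nlinarith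
      · have : 0 < l * (l - 1) - 3 := by nlinarith
        intro h; nlinarith
      · have : 0 < l * l - 8 := by nlinarith
        intro h; nlinarith
    have hX : X = 0 := by
      rcases mul_eq_zero.mp h3 with h | h
      · exact absurd h h4
      · exact h
    refine ⟨hX, ?_⟩
    rw [hX] at h2
    have : (l - 2) * Y = 0 := by linarith
    rcases mul_eq_zero.mp this with h | h
    · linarith
    · exact h
  obtain ⟨a1, b1⟩ := mode (-2) (x0 - x1 + x2 - x3 + x4 - x5) (y0 - y1 + y2 - y3 + y4 - y5)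
    (by simp) (by linear_combination e0 - e1 + e2 - e3 + e4 - e5)
    (by linear_combination f0 - f1 + f2 - f3 + f4 - f5)
  obtain ⟨a2, b2⟩ := mode 1 (2 * x0 + x1 - x2 - 2 * x3 - x4 + x5)
    (2 * y0 + y1 - y2 - 2 * y3 - y4 + y5)
    (by simp) (by linear_combination 2 * e0 + e1 - e2 - 2 * e3 - e4 + e5)
    (by linear_combination 2 * f0 + f1 - f2 - 2 * f3 - f4 + f5)
  obtain ⟨a3, b3⟩ := mode 1 (x1 + x2 - x4 - x5) (y1 + y2 - y4 - y5)
    (by simp) (by linear_combination e1 + e2 - e4 - e5)
    (by linear_combination f1 + f2 - f4 - f5)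
  obtain ⟨a4, b4⟩ := mode (-1) (2 * x0 - x1 - x2 + 2 * x3 - x4 - x5)
    (2 * y0 - y1 - y2 + 2 * y3 - y4 - y5)
    (by simp) (by linear_combination 2 * e0 - e1 - e2 + 2 * e3 - e4 - e5)
    (by linear_combination 2 * f0 - f1 - f2 + 2 * f3 - f4 - f5)
  obtain ⟨a5, b5⟩ := mode (-1) (x1 - x2 + x4 - x5) (y1 - y2 + y4 - y5)
    (by simp) (by linear_combination e1 - e2 + e4 - e5)
    (by linear_combination f1 - f2 + f4 - f5)
  have h6 : l * ((x0 + x1 + x2 + x3 + x4 + x5) - (y0 + y1 + y2 + y3 + y4 + y5)) = 0 := by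
    linear_combination -(e0 + e1 + e2 + e3 + e4 + e5) + (f0 + f1 + f2 + f3 + f4 + f5)
  have h7 : (x0 + x1 + x2 + x3 + x4 + x5) - (y0 + y1 + y2 + y3 + y4 + y5) = 0 := by
    rcases mul_eq_zero.mp h6 with h | h
    · linarith
    · exact h
  refine ⟨⟨?_, ?_, ?_, ?_, ?_⟩, ?_, ?_, ?_, ?_, ?_, ?_⟩ <;> linarith

lemma stepf_val (w : ZMod 6 × Fin 2 → ℝ) (i : ZMod 6) :
    ∑ p, w (stepf p (i, 0)) = w (i + 1, 0) + w (i - 1, 0) + (w (i + 1, 1) + w (i - 1, 1)) ∧
    ∑ p, w (stepf p (i, 1)) = 2 * w (i, 1) + (w (i + 1, 0) + w (i - 1, 0)) := by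
  have h := Fintype.sum_prod_type (fun p : Fin 2 × Bool => w (stepf p (i, 0)))
  have h' := Fintype.sum_prod_type (fun p : Fin 2 × Bool => w (stepf p (i, 1)))
  constructor
  · rw [h]
    simp [stepf, Fin.sum_univ_two, sub_eq_add_neg]
  · rw [h']
    simp [stepf, Fin.sum_univ_two, sub_eq_add_neg]
    ring

lemma QM_const (l : ℝ) (hl : 3 ≤ l) (w : ZMod 6 × Fin 2 → ℝ) (h : QM *ᵥ w = l • w) :
    ∀ a, w a = w (0, 0) := by
  have hx : ∀ i : ZMod 6, w (i + 1, 0) + w (i - 1, 0) + (w (i + 1, 1) + w (i - 1, 1)) =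
      l * w (i, 0) := by
    intro i
    have := congrFun h (i, 0)
    rw [QM_mulVec, (stepf_val w i).1] at this
    exact this
  have hy : ∀ i : ZMod 6, 2 * w (i, 1) + (w (i + 1, 0) + w (i - 1, 0)) = l * w (i, 1) := by
    intro i
    have := congrFun h (i, 1)
    rw [QM_mulVec, (stepf_val w i).2] at this
    exact this
  have key := lin l (w (0, 0)) (w (1, 0)) (w (2, 0)) (w (3, 0)) (w (4, 0)) (w (5, 0))
    (w (0, 1)) (w (1, 1)) (w (2, 1)) (w (3, 1)) (w (4, 1)) (w (5, 1)) hl
    (hx 0) (hx 1) (hx 2) (hx 3) (hx 4) (hx 5) (hy 0) (hy 1) (hy 2) (hy 3) (hy 4) (hy 5)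
  obtain ⟨⟨h1, h2, h3, h4, h5⟩, g0, g1, g2, g3, g4, g5⟩ := key
  rintro ⟨i, j⟩
  fin_cases i <;> fin_cases j
  · rfl
  · exact g0
  · exact h1
  · exact g1
  · exact h2
  · exact g2
  · exact h3
  · exact g3
  · exact h4
  · exact g4
  · exact h5
  · exact g5

lemma card_P : Fintype.card (ZMod 6 × Fin 2) = 12 := by
  simp [ZMod.card]

lemma QM_gap : 1 < gap QM := by
  have hc : 2 ≤ Fintype.card (ZMod 6 × Fin 2) := by rw [card_P]; norm_num
  rw [gap_eq QM QM_herm hc]
  have hanti := QM_herm.eigenvalues₀_antitone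
  obtain ⟨i, hi⟩ := exists_index QM QM_herm 4 (fun _ => 1)
    (by intro h; have := congrFun h (0, 0); simp at this)
    (by funext u; rw [QM_mulVec]; simp)
  have h0 : 4 ≤ QM_herm.eigenvalues₀ ⟨0, by omega⟩ := by
    have := hanti (show (⟨0, by omega⟩ : Fin _) ≤ i from Nat.zero_le _)
    rw [hi] at this
    exact this
  have h1 : QM_herm.eigenvalues₀ ⟨1, by omega⟩ < 3 := by
    by_contra hcon
    rw [not_lt] at hcon
    set e := Fintype.equivOfCardEq (Fintype.card_fin (Fintype.card (ZMod 6 × Fin 2))) with he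
    have hev : ∀ k, QM_herm.eigenvalues (e k) = QM_herm.eigenvalues₀ k := by
      intro k
      unfold Matrix.IsHermitian.eigenvalues
      rw [he]
      simp
    have hconst : ∀ k : Fin _, 3 ≤ QM_herm.eigenvalues₀ k →
        ∀ a, QM_herm.eigenvectorBasis (e k) a = QM_herm.eigenvectorBasis (e k) (0, 0) := by
      intro k hk
      have hv := QM_herm.mulVec_eigenvectorBasis (e k)
      rw [hev] at hv
      exact QM_const _ hk _ hv
    have c0 := hconst ⟨0, by omega⟩ (by linarith)
    have c1 := hconst ⟨1, by omega⟩ hcon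
    have hne : e ⟨0, by omega⟩ ≠ e ⟨1, by omega⟩ := by
      intro h
      have := e.injective h
      simp at this
    have horth := QM_herm.eigenvectorBasis.orthonormal.2 hne
    beta_reduce at horth
    rw [PiLp.inner_apply] at horth
    simp only [c0, c1] at horth
    have hz : ∀ k, (∀ a, QM_herm.eigenvectorBasis (e k) a = QM_herm.eigenvectorBasis (e k) (0, 0)) →
        QM_herm.eigenvectorBasis (e k) (0, 0) ≠ 0 := by
      intro k hk hzero
      have h4 : (QM_herm.eigenvectorBasis (e k)) = 0 := by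
        ext x
        rw [hk x, hzero]
        rfl
      exact QM_herm.eigenvectorBasis.orthonormal.ne_zero _ h4
    rw [Finset.sum_const, Finset.card_univ] at horth
    have n0 := hz _ c0
    have n1 := hz _ c1
    simp only [RCLike.inner_apply, conj_trivial, nsmul_eq_mul] at horth
    rcases mul_eq_zero.mp horth with h | h
    · have h2 : Fintype.card (ZMod 6 × Fin 2) = 0 := by exact_mod_cast h
      omega
    · rcases mul_eq_zero.mp h with h | h
      · exact n1 h
      · exact n0 h
  linarith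

open Classical in
/-- For `m = 6` and `n = 2` the gap of the generalised pancake graph is smaller than the gap of the
quotient matrix of the partition into the sets `V_{i,j}`. -/
theorem result : ∃ Q : Matrix (ZMod 6 × Fin 2) (ZMod 6 × Fin 2) ℝ,
    IsQuotient 6 2 Q ∧ Q.IsSymm ∧ gap ((pancake 6 2).adjMatrix ℝ) < gap Q := by
  refine ⟨QM, QM_quot, ?_, lt_of_le_of_lt AM_gap QM_gap⟩
  have := QM_herm
  rw [Matrix.IsHermitian, Matrix.conjTranspose_eq_transpose_of_trivial] at this
  exact this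

end Pool.Agent.Results.MP_ad1e8a_co.GapFails
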